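import Pool.Agent.Helper79_HMC.Stmts

/-!
# Squad HMC, module GAT: the gates
-/

set_option autoImplicit false

namespace Pool.Agent.HMC.H46

theorem peq_of (A B : List (List (Fin 3)))
    (h : ∀ f ∈ A ++ B, A.count f % 2 = B.count f % 2) : PEq A B := by
  intro f
  by_cases hf : f ∈ A ++ B
  · exact h f hf
  · rw [List.mem_append, not_or] at hf
    rw [List.count_eq_zero.2 hf.1, List.count_eq_zero.2 hf.2]

theorem gat1 : ∀ x y : Bool,
    ∀ f ∈ run SW [2, cb x, 2, cb y, 2] ++ [[2, cb y, 2, cb x, 2]],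
      (run SW [2, cb x, 2, cb y, 2]).count f % 2 = [[2, cb y, 2, cb x, 2]].count f % 2 := by
  decide +kernel

theorem gat2 : ∀ z x y : Bool,
    ∀ f ∈ run CL [cb z, 2, cb x, 2, cb y] ++
      (if x = y ∧ x ≠ z then [] else [[cb z, 2, cb x, 2, cb y]]),
      (run CL [cb z, 2, cb x, 2, cb y]).count f % 2 =
        (if x = y ∧ x ≠ z then [] else [[cb z, 2, cb x, 2, cb y]] : List (List (Fin 3))).count f
          % 2 := by
  decide +kernel

theorem gat3 : ∀ x : Bool, run NT [2, cb x] = [[2, cb (!x)]] := by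
  decide +kernel

theorem gat4 : ∀ x : Bool, run AD [2, cb x] = [[2, cb x]] ∧ run AD [cb x, 2] = [[cb x, 2]] ∧
    run [0, 1, 0, 1] [2, cb x] = [[2, cb x]] := by
  decide +kernel

theorem gat5 : ∀ a x b : Fin 3, a ≠ x → x ≠ b →
    run EQ [a, x, b] = if a = b then [[a, x, b]] else [] := by
  decide +kernel

/-- GAT -/
theorem gat : GatStmt :=
  ⟨fun x y => peq_of _ _ (gat1 x y), fun z x y => peq_of _ _ (gat2 z x y), gat3, gat4, gat5⟩

end Pool.Agent.HMC.H46
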