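import Pool.Agent.Helper79_HMC.Stmts

/-!
# Squad HMC, module PEQ: calculus of words of transitions modulo two
-/

set_option autoImplicit false

namespace Pool.Agent.HMC.H46

theorem run_append (u v : List ℕ) (f : List (Fin 3)) :
    run (u ++ v) f = (run u f).flatMap (run v) := by
  induction u generalizing f with
  | nil => simp [run]
  | cons j u ih =>
    simp only [List.cons_append, run, List.flatMap_assoc]
    congr 1
    funext x
    exact ih x

theorem peq_append (A B A' B' : List (List (Fin 3))) (h : PEq A B) (h' : PEq A' B') :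
    PEq (A ++ A') (B ++ B') := by
  intro f
  rw [List.count_append, List.count_append, Nat.add_mod, h f, h' f, ← Nat.add_mod]

/-- a sum over a list, as a sum over the elements with multiplicities -/
theorem sum_map_mod (A : List (List (Fin 3))) (w : List (Fin 3) → ℕ) (s : Finset (List (Fin 3)))
    (hs : ∀ a ∈ A, a ∈ s) :
    (A.map w).sum % 2 = (∑ a ∈ s, (A.count a % 2) * w a) % 2 := by
  have h1 : (A.map w).sum = ∑ a ∈ s, A.count a * w a := by
    rw [Finset.sum_list_map_count]
    rw [← Finset.sum_subset (s₁ := A.toFinset) (s₂ := s)]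
    · apply Finset.sum_congr rfl
      intro x _
      rw [smul_eq_mul]
      congr!
    · intro a ha; exact hs a (List.mem_toFinset.1 ha)
    · intro a _ ha
      rw [List.mem_toFinset] at ha
      rw [List.count_eq_zero.2 ha, zero_mul]
  rw [h1, Finset.sum_nat_mod, Finset.sum_nat_mod (f := fun a => (A.count a % 2) * w a)]
  congr 1
  apply Finset.sum_congr rfl
  intro a _
  conv_lhs => rw [Nat.mul_mod]
  conv_rhs => rw [Nat.mul_mod, Nat.mod_mod]

theorem peq_flatMap (A B : List (List (Fin 3))) (g : List (Fin 3) → List (List (Fin 3)))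
    (h : PEq A B) : PEq (A.flatMap g) (B.flatMap g) := by
  intro f
  rw [List.count_flatMap, List.count_flatMap]
  have h1 := sum_map_mod A (List.count f ∘ g) (A.toFinset ∪ B.toFinset)
    (fun a ha => Finset.mem_union_left _ (List.mem_toFinset.2 ha))
  have h2 := sum_map_mod B (List.count f ∘ g) (A.toFinset ∪ B.toFinset)
    (fun a ha => Finset.mem_union_right _ (List.mem_toFinset.2 ha))
  rw [h1, h2]
  congr 1
  apply Finset.sum_congr rfl
  intro a _
  rw [h a]

theorem peq_flatMap_congr (A : List (List (Fin 3))) (g g' : List (Fin 3) → List (List (Fin 3)))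
    (h : ∀ f ∈ A, PEq (g f) (g' f)) : PEq (A.flatMap g) (A.flatMap g') := by
  induction A with
  | nil => intro f; simp
  | cons a A ih =>
    rw [List.flatMap_cons, List.flatMap_cons]
    apply peq_append
    · exact h a (by simp)
    · exact ih (fun f hf => h f (List.mem_cons_of_mem _ hf))

theorem peq_length (A B : List (List (Fin 3))) (h : PEq A B) : A.length % 2 = B.length % 2 := by
  have h1 := sum_map_mod A (fun _ => 1) (A.toFinset ∪ B.toFinset)
    (fun a ha => Finset.mem_union_left _ (List.mem_toFinset.2 ha))
  have h2 := sum_map_mod B (fun _ => 1) (A.toFinset ∪ B.toFinset)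
    (fun a ha => Finset.mem_union_right _ (List.mem_toFinset.2 ha))
  simp only [List.map_const', List.sum_replicate, smul_eq_mul, mul_one] at h1 h2
  rw [h1, h2]
  congr 1
  apply Finset.sum_congr rfl
  intro a _
  rw [h a]

/-- PEQ -/
theorem peq : PeqStmt :=
  ⟨run_append, peq_append, peq_flatMap, peq_flatMap_congr, peq_length⟩

end Pool.Agent.HMC.H46
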